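import Mathlib
import Pool.Agent.Y993.HP.Stm

/-!
# HP-LOW: lower bound for the longest chain
-/

set_option autoImplicit false

namespace Pool.Agent.Y275.HP

open Finset Pool.Agent.Y993.HP

section mean

variable {Ω : Type} [Fintype Ω]

theorem Ex_mono {F G : Ω → ℝ} (h : ∀ ω, F ω ≤ G ω) : Ex F ≤ Ex G := by
  unfold Ex
  exact div_le_div_of_nonneg_right (Finset.sum_le_sum fun ω _ => h ω) (Nat.cast_nonneg _)

theorem Ex_sum {ι : Type} (s : Finset ι) (F : ι → Ω → ℝ) :
    Ex (fun ω => ∑ i ∈ s, F i ω) = ∑ i ∈ s, Ex (F i) := by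
  unfold Ex
  rw [Finset.sum_comm, Finset.sum_div]

theorem Ex_add (F G : Ω → ℝ) : Ex (fun ω => F ω + G ω) = Ex F + Ex G := by
  unfold Ex
  rw [Finset.sum_add_distrib, add_div]

theorem Ex_mul_const (F : Ω → ℝ) (c : ℝ) : Ex (fun ω => F ω * c) = Ex F * c := by
  unfold Ex
  rw [← Finset.sum_mul]
  ring

theorem Ex_const [Nonempty Ω] (c : ℝ) : Ex (fun _ : Ω => c) = c := by
  unfold Ex
  rw [Finset.sum_const, Finset.card_univ, nsmul_eq_mul]
  have : (Fintype.card Ω : ℝ) ≠ 0 := by exact_mod_cast Fintype.card_ne_zero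
  field_simp

/-- variance of a sum of negatively correlated variables -/
theorem var_le [Nonempty Ω] {G : ℕ} (Z : Fin G → Ω → ℝ) (L : ℝ) (h0 : ∀ g ω, 0 ≤ Z g ω)
    (h1 : ∀ g ω, Z g ω ≤ L)
    (h2 : ∀ g g', g ≠ g' → Ex (fun ω => Z g ω * Z g' ω) ≤ Ex (Z g) * Ex (Z g')) :
    Ex (fun ω => ((∑ g, Z g ω) - ∑ g, Ex (Z g)) ^ 2) ≤ G * L ^ 2 := by
  classical
  set S : ℝ := ∑ g, Ex (Z g) with hS
  have e1 : ∀ ω, ((∑ g, Z g ω) - S) ^ 2 =
      (∑ g, ∑ g', Z g ω * Z g' ω) + ((∑ g, Z g ω) * (-(2 * S)) + S ^ 2) := by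
    intro ω
    rw [← Finset.sum_mul_sum]
    ring
  have e2 : Ex (fun ω => ((∑ g, Z g ω) - S) ^ 2) =
      (∑ g, ∑ g', Ex (fun ω => Z g ω * Z g' ω)) - S ^ 2 := by
    rw [funext e1, Ex_add, Ex_add, Ex_const, Ex_mul_const, Ex_sum, Ex_sum, ← hS]
    have : ∀ g, Ex (fun ω => ∑ g', Z g ω * Z g' ω) = ∑ g', Ex (fun ω => Z g ω * Z g' ω) :=
      fun g => Ex_sum _ _
    rw [Finset.sum_congr rfl (fun g _ => this g)]
    ring
  have hZ : ∀ g, Ex (fun ω => Z g ω * Z g ω) ≤ L ^ 2 := by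
    intro g
    calc Ex (fun ω => Z g ω * Z g ω) ≤ Ex (fun _ : Ω => L ^ 2) := by
          apply Ex_mono
          intro ω
          nlinarith [h0 g ω, h1 g ω]
      _ = L ^ 2 := Ex_const _
  have e3 : ∑ g, ∑ g', Ex (fun ω => Z g ω * Z g' ω) ≤
      ∑ g, ∑ g', (Ex (Z g) * Ex (Z g') + if g = g' then L ^ 2 else 0) := by
    refine Finset.sum_le_sum fun g _ => Finset.sum_le_sum fun g' _ => ?_
    by_cases h : g = g'
    · subst h
      rw [if_pos rfl]
      have := hZ g
      have := mul_self_nonneg (Ex (Z g))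
      linarith
    · rw [if_neg h, add_zero]
      exact h2 g g' h
  have e4 : ∑ g, ∑ g', (Ex (Z g) * Ex (Z g') + if g = g' then L ^ 2 else 0) =
      S ^ 2 + G * L ^ 2 := by
    simp only [Finset.sum_add_distrib, Finset.sum_ite_eq, Finset.mem_univ, if_true,
      Finset.sum_const, Finset.card_univ, Fintype.card_fin, nsmul_eq_mul]
    rw [← Finset.sum_mul_sum, ← hS]
    ring
  rw [e2]
  linarith

end mean

section chains

variable {d n N : ℕ}

theorem exists_chain (u : Lab d n N) (X : Finset (Pt d n)) :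
    ∃ C ⊆ X, IsCh u C ∧ C.card = lg u X := by
  classical
  have hne : (X.powerset.filter (fun C => IsCh u C)).Nonempty :=
    ⟨∅, Finset.mem_filter.mpr ⟨Finset.empty_mem_powerset X, fun p hp => absurd hp (by simp)⟩⟩
  obtain ⟨C, hC, hcard⟩ := Finset.exists_mem_eq_sup _ hne Finset.card
  rw [Finset.mem_filter, Finset.mem_powerset] at hC
  refine ⟨C, hC.1, hC.2, ?_⟩
  unfold lg
  rw [← hcard]

theorem le_lg (u : Lab d n N) (X C : Finset (Pt d n)) (h : C ⊆ X) (hC : IsCh u C) :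
    C.card ≤ lg u X := by
  classical
  unfold lg
  apply Finset.le_sup (f := Finset.card)
  rw [Finset.mem_filter, Finset.mem_powerset]
  exact ⟨h, hC⟩

theorem mem_pts (A : Finset (Pt d n)) (I : Fin d → Finset (Fin N)) (u : Lab d n N) (p : Pt d n) :
    p ∈ pts A I u ↔ p ∈ A ∧ ∀ i, u (i, p i) ∈ I i := by
  classical
  unfold pts
  rw [Finset.mem_filter]

theorem lg_sum {G : ℕ} (hd : 0 < d) (A : Finset (Pt d n)) (u : Lab d n N) (cl : Fin N → Fin G)
    (hcl : ∀ a b, cl a < cl b → a < b) (I : Fin G → Fin d → Finset (Fin N))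
    (hI : ∀ g i a, a ∈ I g i → cl a = g) :
    ∑ g, lg u (pts A (I g) u) ≤ lg u A := by
  classical
  have hC := fun g => exists_chain u (pts A (I g) u)
  choose C hCs hCh hCc using hC
  have hlab : ∀ g, ∀ p ∈ C g, ∀ i, cl (u (i, p i)) = g := by
    intro g p hp i
    exact hI g i _ (((mem_pts A (I g) u p).mp (hCs g hp)).2 i)
  have hdisj : ∀ g ∈ (Finset.univ : Finset (Fin G)), ∀ g' ∈ (Finset.univ : Finset (Fin G)),
      g ≠ g' → Disjoint (C g) (C g') := by
    intro g _ g' _ hne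
    rw [Finset.disjoint_left]
    intro p hp hp'
    apply hne
    rw [← hlab g p hp ⟨0, hd⟩, ← hlab g' p hp' ⟨0, hd⟩]
  have hcard : (Finset.univ.biUnion C).card = ∑ g, lg u (pts A (I g) u) := by
    rw [Finset.card_biUnion hdisj]
    exact Finset.sum_congr rfl fun g _ => hCc g
  rw [← hcard]
  apply le_lg
  · intro p hp
    rw [Finset.mem_biUnion] at hp
    obtain ⟨g, _, hp⟩ := hp
    exact ((mem_pts A (I g) u p).mp (hCs g hp)).1
  · intro p hp q hq hpq
    rw [Finset.mem_biUnion] at hp hq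
    obtain ⟨g, _, hp⟩ := hp
    obtain ⟨g', _, hq⟩ := hq
    rcases lt_trichotomy g g' with h | h | h
    · left
      intro i
      apply hcl
      rw [hlab g p hp i, hlab g' q hq i]
      exact h
    · subst h
      exact hCh g p hp q hq hpq
    · right
      intro i
      apply hcl
      rw [hlab g p hp i, hlab g' q hq i]
      exact h

end chains

/-- the cells -/
def cell (G M : ℕ) (g : Fin G) : Finset (Fin (G * M)) :=
  Finset.univ.image (fun b : Fin M => finProdFinEquiv (g, b))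

theorem cell_card (G M : ℕ) (g : Fin G) : (cell G M g).card = M := by
  unfold cell
  rw [Finset.card_image_of_injective, Finset.card_univ, Fintype.card_fin]
  intro b b' h
  have := finProdFinEquiv.injective h
  exact (Prod.mk.inj this).2

theorem cell_mem {G M : ℕ} {g : Fin G} {a : Fin (G * M)} (h : a ∈ cell G M g) :
    (finProdFinEquiv.symm a).1 = g := by
  unfold cell at h
  rw [Finset.mem_image] at h
  obtain ⟨b, _, rfl⟩ := h
  simp

theorem cl_mono {G M : ℕ} (a b : Fin (G * M))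
    (h : (finProdFinEquiv.symm a).1 < (finProdFinEquiv.symm b).1) : a < b := by
  by_contra hcon
  rw [not_lt] at hcon
  have h1 : (b : ℕ) / M ≤ (a : ℕ) / M := Nat.div_le_div_right hcon
  have h2 : ((finProdFinEquiv.symm a).1 : ℕ) = (a : ℕ) / M := rfl
  have h3 : ((finProdFinEquiv.symm b).1 : ℕ) = (b : ℕ) / M := rfl
  rw [Fin.lt_def, h2, h3] at h
  omega

theorem mm_large (k : ℕ) (hk : 1 ≤ k) (K : ℝ) : ∃ n1 : ℕ, ∀ n : ℕ, n1 ≤ n → K ≤ mm k n := by
  have hpos : (0 : ℝ) < (k : ℝ) / ((k : ℝ) + 1) := by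
    have : (1 : ℝ) ≤ k := by exact_mod_cast hk
    positivity
  have h1 : Filter.Tendsto (fun n : ℕ => mm k n) Filter.atTop Filter.atTop :=
    (tendsto_rpow_atTop hpos).comp tendsto_natCast_atTop_atTop
  obtain ⟨n1, hn1⟩ := Filter.eventually_atTop.mp (h1.eventually_ge_atTop K)
  exact ⟨n1, hn1⟩

theorem mm_pow (k n : ℕ) : mm k n ^ (k + 1) = (n : ℝ) ^ k := by
  unfold mm
  rw [← Real.rpow_natCast, ← Real.rpow_mul (Nat.cast_nonneg n), ← Real.rpow_natCast]
  congr 1
  push_cast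
  field_simp

theorem low1 (h1 : S_LOC) (h2 : S_NAZ) : S_LOW := by
  intro k L κ ε hk hκ hε δ hδ
  set y : ℝ := κ ^ (1 / ((k : ℝ) + 1)) with hy
  have hy0 : 0 < y := Real.rpow_pos_of_pos hκ _
  have hyk : y ^ (k + 1) = κ := by
    rw [hy, ← Real.rpow_natCast, ← Real.rpow_mul hκ.le]
    push_cast
    rw [one_div, inv_mul_cancel₀ (by positivity), Real.rpow_one]
  set g0 : ℝ := gL (k + 1) L κ with hg0
  obtain ⟨n0, δ', hδ', hloc⟩ := h1 k L (2 * y) κ (ε * y / 4) hk (by positivity) hκ.le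
    (by positivity)
  -- continuity of the power
  have hcont : ContinuousAt (fun t : ℝ => t ^ (k + 1)) y := (continuous_pow (k + 1)).continuousAt
  rw [Metric.continuousAt_iff] at hcont
  obtain ⟨ρ, hρ, hρ'⟩ := hcont δ' hδ'
  -- how large `mm` must be
  set K : ℝ := max (max (y * (2 + 2 * y / ρ)) (4 * |g0| / ε))
    (4 * L ^ 2 / (y * ε ^ 2 * δ)) with hK
  obtain ⟨n1, hn1⟩ := mm_large k hk K
  refine ⟨max (max n0 n1) 1, fun n hn A hA => ?_⟩
  have hn0 : n0 ≤ n := le_trans (le_trans (le_max_left _ _) (le_max_left _ _)) hn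
  have hn1' : n1 ≤ n := le_trans (le_trans (le_max_right _ _) (le_max_left _ _)) hn
  have hn2 : 1 ≤ n := le_trans (le_max_right _ _) hn
  set m : ℝ := mm k n with hm
  have hmK := hn1 n hn1'
  rw [← hm] at hmK
  have hm1 : y * (2 + 2 * y / ρ) ≤ m :=
    le_trans (le_trans (le_max_left _ _) (le_max_left _ _)) hmK
  have hm2 : 4 * |g0| / ε ≤ m := le_trans (le_trans (le_max_right _ _) (le_max_left _ _)) hmK
  have hm3 : 4 * L ^ 2 / (y * ε ^ 2 * δ) ≤ m := le_trans (le_max_right _ _) hmK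
  have hmpos : 0 < m := lt_of_lt_of_le (by positivity) hm1
  set G : ℕ := ⌊m / y⌋₊ with hG
  have hG1 : (G : ℝ) ≤ m / y := Nat.floor_le (by positivity)
  have hG2 : m / y - 1 ≤ G := by
    have := Nat.lt_floor_add_one (m / y)
    rw [← hG] at this
    linarith
  have hmy : 2 + 2 * y / ρ ≤ m / y := by
    rw [le_div_iff₀ hy0]
    linarith
  have hG3 : 1 + 2 * y / ρ ≤ G := by linarith
  have hGpos : (1 : ℝ) ≤ G := by
    have : 0 < 2 * y / ρ := by positivity
    linarith
  have hG0 : (0 : ℝ) < G := by linarith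
  have hGnat : 0 < G := by exact_mod_cast hG0
  set M : ℕ := 2 * (k + 1) * n ^ 3 with hM
  have hMpos : 0 < M := by positivity
  have hMR : (M : ℝ) ≠ 0 := by exact_mod_cast hMpos.ne'
  have hNpos : 0 < G * M := Nat.mul_pos hGnat hMpos
  -- ratio
  have hr1 : y ≤ m / G := by
    rw [le_div_iff₀ hG0]
    rw [le_div_iff₀ hy0] at hG1
    linarith
  have hr2 : m / G - y ≤ y / G := by
    rw [sub_le_iff_le_add, div_le_iff₀ hG0, add_mul, div_mul_cancel₀ _ hG0.ne']
    have : m ≤ (G + 1) * y := by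
      rw [← div_le_iff₀ hy0]
      linarith
    linarith
  have hr3 : y / G ≤ ρ / 2 := by
    rw [div_le_iff₀ hG0]
    have h3 : 2 * y / ρ ≤ G := by linarith
    rw [div_le_iff₀ hρ] at h3
    linarith
  have hr4 : m / G ≤ 2 * y := by
    have : y / G ≤ y := div_le_self hy0.le hGpos
    linarith
  -- the boxes
  set I : Fin G → Fin (k + 1) → Finset (Fin (G * M)) := fun g _ => cell G M g with hI
  have hsd : ∀ g i, sd (I g) i = 1 / G := by
    intro g i
    unfold sd
    rw [hI]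
    simp only [cell_card]
    push_cast
    field_simp
  have hsdm : ∀ g i, sd (I g) i * mm k n ≤ 2 * y := by
    intro g i
    rw [hsd, ← hm, one_div, inv_mul_eq_div]
    exact hr4
  have hwt : ∀ g, |(n : ℝ) ^ k * wt (I g) - κ| ≤ δ' := by
    intro g
    have h3 : (n : ℝ) ^ k * wt (I g) = (m / G) ^ (k + 1) := by
      unfold wt
      rw [Finset.prod_congr rfl (fun i _ => hsd g i), Finset.prod_const, Finset.card_univ,
        Fintype.card_fin, ← mm_pow, ← hm, ← mul_pow, mul_one_div]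
    rw [h3, ← hyk]
    have h4 : dist (m / G) y < ρ := by
      rw [Real.dist_eq, abs_of_nonneg (by linarith)]
      linarith
    have h5 := hρ' h4
    rw [Real.dist_eq] at h5
    exact h5.le
  have hn3 : n ^ 3 ≤ G * M := by
    rw [hM]
    have h3 : 1 * (1 * n ^ 3) ≤ G * (2 * (k + 1) * n ^ 3) :=
      Nat.mul_le_mul hGnat (Nat.mul_le_mul (by omega) le_rfl)
    simpa using h3
  have hexp : ∀ g, |Ex (fun u : Lab (k + 1) n (G * M) => (zz A (I g) L u : ℝ)) - g0| ≤
      ε * y / 4 := fun g => hloc n (G * M) A (I g) hn0 hNpos hA hn3 (hsdm g) (hwt g)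
  have hdisj : ∀ i j j', j ≠ j' → Disjoint (I j i) (I j' i) := by
    intro i j j' hjj
    rw [Finset.disjoint_left]
    intro a ha ha'
    exact hjj ((cell_mem ha).symm.trans (cell_mem ha'))
  have hneg := (h2 (k + 1) n (G * M) L G A I hNpos hdisj).2
  refine ⟨G * M, hNpos, ?_, ?_⟩
  · have h3 : 1 * (2 * (k + 1) * n ^ 2) ≤ G * (2 * (k + 1) * n ^ 3) :=
      Nat.mul_le_mul hGnat (Nat.mul_le_mul le_rfl (Nat.pow_le_pow_right hn2 (by norm_num)))
    simpa using h3
  -- probability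
  have : Nonempty (Fin (G * M)) := ⟨⟨0, hNpos⟩⟩
  let Z : Fin G → Lab (k + 1) n (G * M) → ℝ := fun g u => (zz A (I g) L u : ℝ)
  have hvar := var_le Z L (fun g u => Nat.cast_nonneg _)
    (fun g u => by
      have : zz A (I g) L u ≤ L := min_le_right _ _
      change (zz A (I g) L u : ℝ) ≤ L
      exact_mod_cast this) hneg
  set S : ℝ := ∑ g, Ex (Z g) with hS
  have hSlow : (g0 / y) * m - ε / 2 * m ≤ S := by
    have h3 : (G : ℝ) * (g0 - ε * y / 4) ≤ S := by
      have h4 : ∑ g : Fin G, (g0 - ε * y / 4) ≤ S := by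
        refine Finset.sum_le_sum fun g _ => ?_
        have := (abs_le.mp (hexp g)).1
        change _ ≤ Ex (Z g)
        linarith
      rw [Finset.sum_const, Finset.card_univ, Fintype.card_fin, nsmul_eq_mul] at h4
      exact h4
    have h4 : (g0 / y) * m - |g0| ≤ G * g0 := by
      have h5 : |(G : ℝ) - m / y| ≤ 1 := by
        rw [abs_le]
        constructor <;> linarith
      have h6 : |((G : ℝ) - m / y) * g0| ≤ |g0| := by
        rw [abs_mul]
        have := mul_le_mul_of_nonneg_right h5 (abs_nonneg g0)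
        linarith
      have h7 := (abs_le.mp h6).1
      have h8 : (g0 / y) * m = m / y * g0 := by ring
      rw [h8]
      linarith
    have h5 : (G : ℝ) * (ε * y / 4) ≤ ε / 4 * m := by
      have h6 := mul_le_mul_of_nonneg_right hG1 (show 0 ≤ ε * y / 4 by positivity)
      have h7 : m / y * (ε * y / 4) = ε / 4 * m := by field_simp
      linarith
    have h6 : |g0| ≤ ε / 4 * m := by
      rw [div_le_iff₀ hε] at hm2
      linarith
    have h7 : (G : ℝ) * (g0 - ε * y / 4) = G * g0 - G * (ε * y / 4) := by ring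
    linarith
  have hlg : ∀ u : Lab (k + 1) n (G * M), ∑ g, Z g u ≤ (lg u A : ℝ) := by
    intro u
    have h3 := lg_sum (Nat.succ_pos k) A u (fun a => (finProdFinEquiv.symm a).1)
      (fun a b h => cl_mono a b h) I (fun g i a ha => cell_mem ha)
    have h4 : ∑ g, zz A (I g) L u ≤ lg u A :=
      le_trans (Finset.sum_le_sum fun g _ => min_le_left _ _) h3
    have h5 : ((∑ g, zz A (I g) L u : ℕ) : ℝ) ≤ (lg u A : ℝ) := by exact_mod_cast h4
    rw [Nat.cast_sum] at h5
    exact h5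
  have hem : 0 < ε / 2 * m := by positivity
  have hcheb : Pr (fun u : Lab (k + 1) n (G * M) => (lg u A : ℝ) ≤ (g0 / y - ε) * m) ≤
      Ex (fun u => ((∑ g, Z g u) - S) ^ 2) * ((ε / 2 * m) ^ 2)⁻¹ := by
    rw [← Ex_mul_const]
    unfold Pr
    apply Ex_mono
    intro u
    split_ifs with hE
    · rw [← div_eq_mul_inv, le_div_iff₀ (by positivity), one_mul]
      have h3 := hlg u
      have h4 : ε / 2 * m ≤ S - ∑ g, Z g u := by
        have h5 : (g0 / y - ε) * m = g0 / y * m - ε / 2 * m - ε / 2 * m := by ring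
        linarith
      nlinarith
    · positivity
  refine hcheb.trans ?_
  rw [← div_eq_mul_inv, div_le_iff₀ (by positivity)]
  refine hvar.trans ?_
  -- `G * L ^ 2 ≤ δ * (ε / 2 * m) ^ 2`
  have h3 : 4 * (L : ℝ) ^ 2 ≤ m * (y * ε ^ 2 * δ) := by
    rw [div_le_iff₀ (by positivity)] at hm3
    exact hm3
  have h4 : (G : ℝ) * L ^ 2 ≤ m / y * L ^ 2 := mul_le_mul_of_nonneg_right hG1 (sq_nonneg _)
  have h5 : m / y * (4 * (L : ℝ) ^ 2) ≤ m / y * (m * (y * ε ^ 2 * δ)) :=
    mul_le_mul_of_nonneg_left h3 (by positivity)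
  have h6 : m / y * (m * (y * ε ^ 2 * δ)) = 4 * (δ * (ε / 2 * m) ^ 2) := by
    field_simp
    ring
  linarith

end Pool.Agent.Y275.HP
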